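import Pool.Agent.J4H63.KS.Stm

set_option autoImplicit false

/-! Project KS (helper63), pieces CPLK and LVL. -/

namespace Pool.Agent.J4H91.KS

open Finset Pool.Agent.J4H64.SS Pool.Agent.J4H95.SP Pool.Agent.J4H63.KS

variable {V : Type} [DecidableEq V]

theorem re_congr {r : ℕ} {b : ℕ → ℕ} {A A' : ℕ → Fin 3 → Finset V} {H : Finset V → Prop} :
    ∀ j : ℕ, (∀ i, i < j → A i = A' i) → Re r b A H j = Re r b A' H j
  | 0, _ => rfl
  | j + 1, h => by
    show Nx r (r - 1 - j) (b j) (A j 0) (A j 1) (A j 2) (Re r b A H j) =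
      Nx r (r - 1 - j) (b j) (A' j 0) (A' j 1) (A' j 2) (Re r b A' H j)
    rw [re_congr j (fun i hi => h i (by omega)), h j (by omega)]

theorem out_congr {r : ℕ} {b : ℕ → ℕ} {A A' : ℕ → Fin 3 → Finset V} {H : Finset V → Prop}
    (h : ∀ i, i < r → A i = A' i) : Out r b A H = Out r b A' H := by
  funext s
  apply propext
  unfold Out
  constructor
  · rintro ⟨j, hj, hs⟩
    refine ⟨j, hj, ?_⟩
    rw [← re_congr j (fun i hi => h i (by omega)), ← h j hj]
    exact hs
  · rintro ⟨j, hj, hs⟩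
    refine ⟨j, hj, ?_⟩
    rw [re_congr j (fun i hi => h i (by omega)), h j hj]
    exact hs

theorem re_imp {r : ℕ} {b : ℕ → ℕ} {A : ℕ → Fin 3 → Finset V} {H : Finset V → Prop} :
    ∀ (j : ℕ) (e : Finset V), Re r b A H j e → H e
  | 0, _, h => h
  | j + 1, e, h => re_imp j e (And.left (h : Nx r (r - 1 - j) (b j) (A j 0) (A j 1) (A j 2) (Re r b A H j) e))

theorem ps_congr {b : ℕ → ℕ → ℕ} {A A' : ℕ → ℕ → Fin 3 → Finset V} :
    ∀ (r : ℕ) (Φ : Finset V → Prop), (∀ r' ≤ r, ∀ j < r', A r' j = A' r' j) →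
      Ps b A r Φ = Ps b A' r Φ
  | 0, _, _ => rfl
  | 1, _, _ => rfl
  | r + 2, Φ, h => by
    have h1 : Re (r + 2) (b (r + 2)) (A (r + 2)) (fun e => Φ e ∧ e.card = r + 2) (r + 2) =
        Re (r + 2) (b (r + 2)) (A' (r + 2)) (fun e => Φ e ∧ e.card = r + 2) (r + 2) :=
      re_congr _ (fun i hi => h (r + 2) le_rfl i hi)
    have h2 : Out (r + 2) (b (r + 2)) (A (r + 2)) (fun e => Φ e ∧ e.card = r + 2) =
        Out (r + 2) (b (r + 2)) (A' (r + 2)) (fun e => Φ e ∧ e.card = r + 2) :=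
      out_congr (fun i hi => h (r + 2) le_rfl i hi)
    show (fun e => Re (r + 2) (b (r + 2)) (A (r + 2)) (fun e => Φ e ∧ e.card = r + 2) (r + 2) e ∨
      Ps b A (r + 1) (fun s => s.card < r + 2 ∧
        (Φ s ∨ Out (r + 2) (b (r + 2)) (A (r + 2)) (fun e => Φ e ∧ e.card = r + 2) s)) e) =
      (fun e => Re (r + 2) (b (r + 2)) (A' (r + 2)) (fun e => Φ e ∧ e.card = r + 2) (r + 2) e ∨
      Ps b A' (r + 1) (fun s => s.card < r + 2 ∧
        (Φ s ∨ Out (r + 2) (b (r + 2)) (A' (r + 2)) (fun e => Φ e ∧ e.card = r + 2) s)) e)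
    rw [h1, h2, ps_congr (r + 1) _ (fun r' hr' => h r' (by omega))]

theorem cpl_aux [Fintype V] {q : ℕ} {b : ℕ → ℕ → ℕ} (T : Finset V)
    (hb : ∀ r, 2 ≤ r → ∀ (H : Finset V → Prop) (I : Finset V), (∀ e, H e → e.card = r ∧ ¬ e ⊆ I) →
      ∃ A : ℕ → Fin 3 → Finset V, (∀ j c, q * (A j c).card ≤ Fintype.card V) ∧
        ∀ s, Out r (b r) A H s → ¬ s ⊆ I) :
    ∀ (r : ℕ) (Φ : Finset V → Prop), (∀ e, Φ e → e.card ≤ r) → Hits T Φ →
      ∃ A : ℕ → ℕ → Fin 3 → Finset V, (∀ r j c, q * (A r j c).card ≤ Fintype.card V) ∧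
        Hits T (Ps b A r Φ)
  | 0, _, _, h => ⟨fun _ _ _ => ∅, fun _ _ _ => by rw [card_empty, mul_zero]; exact Nat.zero_le _, h⟩
  | 1, _, _, h => ⟨fun _ _ _ => ∅, fun _ _ _ => by rw [card_empty, mul_zero]; exact Nat.zero_le _, h⟩
  | r + 2, Φ, hΦ, h => by
    have hT : ∀ e : Finset V, (∃ v ∈ e, v ∈ T) ↔ ¬ e ⊆ Tᶜ := by
      intro e
      rw [not_subset]
      refine exists_congr fun v => and_congr_right fun _ => ?_
      rw [mem_compl, not_not]
    obtain ⟨A₁, hA₁, hO⟩ := hb (r + 2) (by omega) (fun e => Φ e ∧ e.card = r + 2) Tᶜ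
      (fun e he => ⟨he.2, (hT e).1 (h e he.1)⟩)
    obtain ⟨A₂, hA₂, hP⟩ := cpl_aux T hb (r + 1) (fun s => s.card < r + 2 ∧
        (Φ s ∨ Out (r + 2) (b (r + 2)) A₁ (fun e => Φ e ∧ e.card = r + 2) s))
        (fun e he => by have := he.1; omega) (fun e he => by
          rcases he.2 with h1 | h1
          · exact h e h1
          · exact (hT e).2 (hO e h1))
    refine ⟨Function.update A₂ (r + 2) A₁, ?_, ?_⟩
    · intro r' j c
      by_cases hr : r' = r + 2
      · rw [hr, Function.update_self]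
        exact hA₁ j c
      · rw [Function.update_of_ne hr]
        exact hA₂ r' j c
    · have h1 : Ps b (Function.update A₂ (r + 2) A₁) (r + 1) = Ps b A₂ (r + 1) := by
        funext Ψ
        exact ps_congr (r + 1) Ψ (fun r' hr' j _ => by rw [Function.update_of_ne (by omega)])
      intro e he
      have he' : Re (r + 2) (b (r + 2)) (Function.update A₂ (r + 2) A₁ (r + 2))
          (fun e => Φ e ∧ e.card = r + 2) (r + 2) e ∨
          Ps b (Function.update A₂ (r + 2) A₁) (r + 1) (fun s => s.card < r + 2 ∧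
          (Φ s ∨ Out (r + 2) (b (r + 2)) (Function.update A₂ (r + 2) A₁ (r + 2))
            (fun e => Φ e ∧ e.card = r + 2) s)) e := he
      rw [h1, Function.update_self] at he'
      rcases he' with h2 | h2
      · exact h e (re_imp _ e h2).1
      · exact hP e h2

theorem t_CPLK : S_LVL → S_CPLK := by
  intro hLVL k q hq
  have h1 : ∀ r : ℕ, ∃ b : ℕ → ℕ, 2 ≤ r → ∀ (V : Type) [Fintype V] [DecidableEq V]
      (H : Finset V → Prop) (I : Finset V), (∀ e, H e → e.card = r ∧ ¬ e ⊆ I) →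
      ∃ A : ℕ → Fin 3 → Finset V, (∀ j c, q * (A j c).card ≤ Fintype.card V) ∧
        ∀ s, Out r b A H s → ¬ s ⊆ I := by
    intro r
    by_cases hr : 2 ≤ r
    · obtain ⟨b, hb⟩ := hLVL r q hr hq
      exact ⟨b, fun _ => hb⟩
    · exact ⟨fun _ => 0, fun h => absurd h hr⟩
  choose b hb using h1
  refine ⟨b, ?_⟩
  intro V _ _ Φ T hΦ hT
  obtain ⟨A, hA, hP⟩ := cpl_aux (q := q) (b := b) T (fun r hr => hb r hr V) k Φ hΦ hT
  refine ⟨fun c => A c.1 c.2.1 c.2.2, fun c => hA _ _ _, ?_⟩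
  rw [ps_congr (A' := A) k Φ]
  · exact hP
  · intro r' hr' j hj
    funext c
    unfold Pool.Agent.J4H63.KS.ext
    rw [dif_pos ⟨by omega, by omega⟩]

theorem t_LVL : S_STEP → S_VAL → S_LVL := by
  intro hSTEP hVAL r q hr hq
  have h1 : ∀ t D : ℕ, ∃ D' : ℕ, 1 ≤ t → t < r → ∀ (V : Type) [Fintype V]
      [DecidableEq V] (H : Finset V → Prop) (I : Finset V), (∀ e, H e → e.card = r ∧ ¬ e ⊆ I) →
      (∀ x ∈ I, ∀ S : Finset (Finset V), (∀ e ∈ S, H e ∧ x ∈ e ∧ t + 1 ≤ (e ∩ I).card) →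
        S.card ≤ D) →
      ∃ T Y X : Finset V, T ⊆ I ∧ Disjoint Y I ∧ X ⊆ I ∧ q * T.card ≤ Fintype.card V ∧
        q * Y.card ≤ Fintype.card V ∧ q * X.card ≤ Fintype.card V ∧
        ∀ x ∈ I, ∀ S : Finset (Finset V),
          (∀ e ∈ S, Nx r t (2 ^ r * D + 1) T Y X H e ∧ x ∈ e ∧ t ≤ (e ∩ I).card) → S.card ≤ D' := by
    intro t D
    by_cases h : 1 ≤ t ∧ t < r
    · obtain ⟨D', hD'⟩ := hSTEP r t D q hq h.1 h.2
      exact ⟨D', fun _ _ => hD'⟩
    · exact ⟨0, fun h1 h2 => absurd ⟨h1, h2⟩ h⟩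
  choose f hf using h1
  set D : ℕ → ℕ := fun j => Nat.rec 0 (fun j D => f (r - 1 - j) D) j with hD
  have hD0 : D 0 = 0 := rfl
  have hDs : ∀ j, D (j + 1) = f (r - 1 - j) (D j) := fun j => rfl
  clear_value D
  refine ⟨fun j => 2 ^ r * D j + 1, ?_⟩
  intro V _ _ H I hH
  set b : ℕ → ℕ := fun j => 2 ^ r * D j + 1 with hb
  have key : ∀ J : ℕ, J ≤ r - 1 → ∃ A : ℕ → Fin 3 → Finset V,
      (∀ j c, q * (A j c).card ≤ Fintype.card V) ∧
      (∀ j, A j 0 ⊆ I ∧ Disjoint (A j 1) I ∧ A j 2 ⊆ I) ∧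
      ∀ j ≤ J, ∀ x ∈ I, ∀ S : Finset (Finset V),
        (∀ e ∈ S, Re r b A H j e ∧ x ∈ e ∧ r - 1 - j + 1 ≤ (e ∩ I).card) → S.card ≤ D j := by
    intro J
    induction J with
    | zero =>
      intro _
      refine ⟨fun _ _ => ∅, fun _ _ => by rw [card_empty, mul_zero]; exact Nat.zero_le _,
        fun _ => ⟨empty_subset _, disjoint_empty_left _, empty_subset _⟩, ?_⟩
      intro j hj x _ S hS
      have hj0 : j = 0 := by omega
      subst hj0
      rw [hD0]
      by_contra hcon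
      obtain ⟨e, he⟩ := card_pos.1 (Nat.pos_of_ne_zero (fun h => hcon (le_of_eq h)))
      obtain ⟨h2, _, h3⟩ := hS e he
      obtain ⟨h4, h5⟩ := hH e h2
      apply h5
      have h6 : e ∩ I = e := eq_of_subset_of_card_le inter_subset_left (by omega)
      exact inter_eq_left.1 h6
    | succ J ih =>
      intro hJ
      obtain ⟨A, hA1, hA2, hA3⟩ := ih (by omega)
      obtain ⟨T, Y, X, hT, hY, hX, hqT, hqY, hqX, hN⟩ := hf (r - 1 - J) (D J) (by omega) (by omega)
        V (Re r b A H J) I (fun e he => hH e (re_imp J e he)) (hA3 J le_rfl)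
      have hre : ∀ j ≤ J, Re r b (Function.update A J ![T, Y, X]) H j = Re r b A H j := fun j hj =>
        re_congr j (fun i hi => Function.update_of_ne (by omega) _ _)
      refine ⟨Function.update A J ![T, Y, X], ?_, ?_, ?_⟩
      · intro j c
        by_cases hj : j = J
        · rw [hj, Function.update_self]
          fin_cases c
          · exact hqT
          · exact hqY
          · exact hqX
        · rw [Function.update_of_ne hj]
          exact hA1 j c
      · intro j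
        by_cases hj : j = J
        · rw [hj, Function.update_self]
          exact ⟨hT, hY, hX⟩
        · rw [Function.update_of_ne hj]
          exact hA2 j
      · intro j hj x hx S hS
        by_cases hj' : j ≤ J
        · refine hA3 j hj' x hx S (fun e he => ?_)
          have := hS e he
          rw [hre j hj'] at this
          exact this
        · have hjJ : j = J + 1 := by omega
          subst hjJ
          rw [hDs]
          refine hN x hx S (fun e he => ?_)
          obtain ⟨h2, h3, h4⟩ := hS e he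
          refine ⟨?_, h3, by omega⟩
          have h5 : Nx r (r - 1 - J) (b J) (Function.update A J ![T, Y, X] J 0)
            (Function.update A J ![T, Y, X] J 1) (Function.update A J ![T, Y, X] J 2)
            (Re r b (Function.update A J ![T, Y, X]) H J) e := h2
          rw [hre J le_rfl, Function.update_self] at h5
          exact h5
  obtain ⟨A, hA1, hA2, hA3⟩ := key (r - 1) le_rfl
  refine ⟨A, hA1, ?_⟩
  rintro s ⟨j, hj, hs⟩
  exact hVAL V r (r - 1 - j) (D j) (Re r b A H j) (A j 0) (A j 1) (A j 2) I hr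
    (fun e he => hH e (re_imp j e he)) (hA3 j (by omega)) (hA2 j).1 (hA2 j).2.1 (hA2 j).2.2 s hs

end Pool.Agent.J4H91.KS
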